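import Pool.Agent.L7h34.TR.Geo

/-!
# Exponential Riesz bases for the boundary length measure of a triangle

For every triangle in the plane the length measure of its boundary admits an exponential Riesz basis. The frequencies are three
arithmetic progressions: `l` with `(⟨l, q - p⟩, ⟨l, r - p⟩)` equal to `(-(2 n + 1), -(n + 1/2))`, `(n + 1/2, -(n + 1/2))` or
`(n, 2 n)`, `n` an integer (`p`, `q`, `r` the vertices).
-/

set_option autoImplicit false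

open MeasureTheory Measure Set
open scoped ENNReal RealInnerProductSpace ComplexConjugate

namespace Pool.Agent.Results.MP_9e9244_an.TriangleRieszBasis

open Pool.Agent.Results.MP_9e9244_an.SquareRieszBasis Pool.Agent.L7h34.TR

variable {b u v : E}

/-- the frequencies -/
noncomputable def fr3 (u v : E) (g : Fin 3 × ℤ) : E := dual u v (xc g.1 g.2) (yc g.1 g.2)

theorem ex_fr3 (h : LinearIndependent ℝ ![u, v]) (g : Fin 3 × ℤ) (x y : ℝ) :
    ex (fr3 u v g) (b + x • u + y • v) =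
      ex (fr3 u v g) b * (e (xc g.1 g.2 * x) * e (yc g.1 g.2 * y)) := by
  obtain ⟨h1, h2⟩ := inner_dual h (xc g.1 g.2) (yc g.1 g.2)
  unfold ex fr3 e
  rw [inner_add_right, inner_add_right, inner_smul_right, inner_smul_right, h1, h2,
    ← Complex.exp_add, ← Complex.exp_add]
  congr 1
  push_cast
  ring

theorem xc_yc_inj : Function.Injective fun g : Fin 3 × ℤ => (xc g.1 g.2, yc g.1 g.2) := by
  rintro ⟨i, m⟩ ⟨j, n⟩ h
  simp only [Prod.mk.injEq] at h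
  obtain ⟨h1, h2⟩ := h
  have hh : ∀ p q : ℤ, (p : ℝ) + 1 / 2 ≠ q := by
    intro p q hpq
    have : (2 * p + 1 : ℤ) = 2 * q := by
      have : (2 * (p : ℝ) + 1) = 2 * q := by linarith
      exact_mod_cast this
    omega
  fin_cases i <;> fin_cases j <;> simp only [xc, yc] at h1 h2
  · have : m = n := by exact_mod_cast (by linarith : (m : ℝ) = n)
    rw [this]
  · exact absurd (show (n : ℝ) + 1 / 2 = ((-(2 * m + 1) : ℤ) : ℝ) by push_cast; exact h1.symm) (hh _ _)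
  · exact absurd (show ((-m - 1 : ℤ) : ℝ) + 1 / 2 = ((2 * n : ℤ) : ℝ) by push_cast; linarith) (hh _ _)
  · exact absurd (show (m : ℝ) + 1 / 2 = ((-(2 * n + 1) : ℤ) : ℝ) by push_cast; exact h1) (hh _ _)
  · have : m = n := by exact_mod_cast (by linarith : (m : ℝ) = n)
    rw [this]
  · exact absurd (show (m : ℝ) + 1 / 2 = ((n : ℤ) : ℝ) from h1) (hh _ _)
  · exact absurd (show ((-n - 1 : ℤ) : ℝ) + 1 / 2 = ((2 * m : ℤ) : ℝ) by push_cast; linarith) (hh _ _)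
  · exact absurd (show (n : ℝ) + 1 / 2 = ((m : ℤ) : ℝ) from h1.symm) (hh _ _)
  · have : m = n := by exact_mod_cast h1
    rw [this]

theorem fr3_inj (h : LinearIndependent ℝ ![u, v]) : Function.Injective (fr3 u v) := by
  intro g g' hg
  apply xc_yc_inj
  have h1 := inner_dual h (xc g.1 g.2) (yc g.1 g.2)
  have h2 := inner_dual h (xc g'.1 g'.2) (yc g'.1 g'.2)
  unfold fr3 at hg
  rw [hg] at h1
  exact Prod.ext (h1.1.symm.trans h2.1) (h1.2.symm.trans h2.2)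

theorem edge1 (t : ℝ) : b + t • u = b + t • u + (0 : ℝ) • v := by simp

theorem edge2 (t : ℝ) : b + u + t • (v - u) = b + (1 - t) • u + t • v := by
  rw [sub_smul, one_smul, smul_sub]; abel

theorem edge3 (t : ℝ) : b + v + t • (-v) = b + (0 : ℝ) • u + (1 - t) • v := by
  rw [sub_smul, one_smul, smul_neg, zero_smul]; abel

theorem sum_ext3 (G : Finset (Fin 3 × ℤ)) {R : Type*} [AddCommMonoid R] (f : Fin 3 × ℤ → R) :
    ∑ i, ∑ m ∈ G.image Prod.snd, (if (i, m) ∈ G then f (i, m) else 0) = ∑ g ∈ G, f g := by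
  classical
  rw [← Finset.sum_product' (s := Finset.univ) (t := G.image Prod.snd)
    (f := fun i m => if (i, m) ∈ G then f (i, m) else 0)]
  have hsub : G ⊆ Finset.univ ×ˢ G.image Prod.snd := by
    intro g hg
    rw [Finset.mem_product]
    exact ⟨Finset.mem_univ _, Finset.mem_image_of_mem _ hg⟩
  rw [← Finset.sum_subset hsub]
  · refine Finset.sum_congr rfl fun g hg => ?_
    simp [hg]
  · intro g _ hg
    simp [hg]

theorem sub_ne (h : LinearIndependent ℝ ![u, v]) : 0 < ‖v - u‖ := by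
  rw [norm_pos_iff, sub_ne_zero]
  intro huv
  rw [LinearIndependent.pair_iff] at h
  have := h 1 (-1) (by rw [huv]; simp)
  exact one_ne_zero this.1

theorem riesz_ineq3 (h : LinearIndependent ℝ ![u, v]) (G : Finset (Fin 3 × ℤ)) (c : E → ℂ) :
    min (min ‖u‖ ‖v - u‖) ‖v‖ / 4438 * ∑ g ∈ G, ‖c (fr3 u v g)‖ ^ 2 ≤
      ∫ x, ‖∑ g ∈ G, c (fr3 u v g) * ex (fr3 u v g) x‖ ^ 2 ∂(sg b u v) ∧
    ∫ x, ‖∑ g ∈ G, c (fr3 u v g) * ex (fr3 u v g) x‖ ^ 2 ∂(sg b u v) ≤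
      10 * max (max ‖u‖ ‖v - u‖) ‖v‖ * ∑ g ∈ G, ‖c (fr3 u v g)‖ ^ 2 := by
  classical
  have hu : 0 < ‖u‖ := norm_pos_iff.2 (h.ne_zero 0)
  have hv : 0 < ‖v‖ := norm_pos_iff.2 (h.ne_zero 1)
  have hw := sub_ne h
  set K : Finset ℤ := G.image Prod.snd with hK
  set a : Fin 3 → ℤ → ℂ := fun i m =>
    if (i, m) ∈ G then c (fr3 u v (i, m)) * ex (fr3 u v (i, m)) b else 0 with ha
  have hval : ∀ x y : ℝ, ∑ g ∈ G, c (fr3 u v g) * ex (fr3 u v g) (b + x • u + y • v) =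
      S3 K a x y := by
    intro x y
    rw [← sum_ext3 G]
    unfold S3
    refine Finset.sum_congr rfl fun i _ => Finset.sum_congr rfl fun m _ => ?_
    simp only [ha]
    split_ifs
    · rw [ex_fr3 h]
      ring
    · rw [zero_mul]
  have hnorm : ∑ g ∈ G, ‖c (fr3 u v g)‖ ^ 2 = ∑ i, ∑ m ∈ K, ‖a i m‖ ^ 2 := by
    rw [← sum_ext3 G]
    refine Finset.sum_congr rfl fun i _ => Finset.sum_congr rfl fun m _ => ?_
    simp only [ha]
    split_ifs
    · rw [norm_mul, norm_ex, mul_one]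
    · simp
  set M : ℝ := ∑ g ∈ G, ‖c (fr3 u v g)‖ with hM
  have hcont : Continuous fun x : E => ‖∑ g ∈ G, c (fr3 u v g) * ex (fr3 u v g) x‖ ^ 2 := by
    refine Continuous.pow (Continuous.norm ?_) 2
    exact continuous_finsetSum _ fun g _ => continuous_const.mul (ex_continuous _)
  have hbd : ∀ x : E, ‖‖∑ g ∈ G, c (fr3 u v g) * ex (fr3 u v g) x‖ ^ 2‖ ≤ M ^ 2 := by
    intro x
    rw [Real.norm_of_nonneg (by positivity)]
    refine pow_le_pow_left₀ (norm_nonneg _) ?_ 2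
    refine (norm_sum_le _ _).trans (le_of_eq ?_)
    refine Finset.sum_congr rfl fun g _ => ?_
    rw [norm_mul, norm_ex, mul_one]
  rw [integral_sg h hcont hbd, hnorm]
  have f1 : (fun t : ℝ => ‖∑ g ∈ G, c (fr3 u v g) * ex (fr3 u v g) (b + t • u)‖ ^ 2) =
      fun t => ‖S3 K a t 0‖ ^ 2 := by
    funext t
    rw [edge1 (v := v) t, hval]
  have f2 : (fun t : ℝ => ‖∑ g ∈ G, c (fr3 u v g) * ex (fr3 u v g) (b + u + t • (v - u))‖ ^ 2) =
      fun t => ‖S3 K a (1 - t) t‖ ^ 2 := by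
    funext t
    rw [edge2, hval]
  have f3 : (fun t : ℝ => ‖∑ g ∈ G, c (fr3 u v g) * ex (fr3 u v g) (b + v + t • (-v))‖ ^ 2) =
      fun t => ‖S3 K a 0 (1 - t)‖ ^ 2 := by
    funext t
    rw [edge3 (u := u) t, hval]
  rw [f1, f2, f3]
  obtain ⟨r1, r2⟩ := riesz_core K a
  set I1 := ∫ t, ‖S3 K a t 0‖ ^ 2 ∂tau with hI1
  set I2 := ∫ t, ‖S3 K a (1 - t) t‖ ^ 2 ∂tau with hI2
  set I3 := ∫ t, ‖S3 K a 0 (1 - t)‖ ^ 2 ∂tau with hI3
  have p1 : 0 ≤ I1 := integral_nonneg fun x => by positivity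
  have p2 : 0 ≤ I2 := integral_nonneg fun x => by positivity
  have p3 : 0 ≤ I3 := integral_nonneg fun x => by positivity
  set m := min (min ‖u‖ ‖v - u‖) ‖v‖ with hm
  set MM := max (max ‖u‖ ‖v - u‖) ‖v‖ with hMM
  have m1 : m ≤ ‖u‖ := (min_le_left _ _).trans (min_le_left _ _)
  have m2 : m ≤ ‖v - u‖ := (min_le_left _ _).trans (min_le_right _ _)
  have m3 : m ≤ ‖v‖ := min_le_right _ _
  have M1 : ‖u‖ ≤ MM := (le_max_left _ _).trans (le_max_left _ _)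
  have M2 : ‖v - u‖ ≤ MM := (le_max_right _ _).trans (le_max_left _ _)
  have M3 : ‖v‖ ≤ MM := le_max_right _ _
  have hm0 : 0 < m := lt_min (lt_min hu hw) hv
  have hM0 : 0 < MM := lt_of_lt_of_le hu M1
  set Ss := ∑ i, ∑ m ∈ K, ‖a i m‖ ^ 2 with hSs
  constructor
  · calc m / 4438 * Ss = m * (Ss / 4438) := by ring
      _ ≤ m * (I1 + I2 + I3) := by gcongr
      _ = m * I1 + m * I2 + m * I3 := by ring
      _ ≤ ‖u‖ * I1 + ‖v - u‖ * I2 + ‖v‖ * I3 := by gcongr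
  · calc ‖u‖ * I1 + ‖v - u‖ * I2 + ‖v‖ * I3 ≤ MM * I1 + MM * I2 + MM * I3 := by gcongr
      _ = MM * (I1 + I2 + I3) := by ring
      _ ≤ MM * (10 * Ss) := by gcongr
      _ = 10 * MM * Ss := by ring

/-- an integral over a side, folded -/
theorem fold_e {f : ℝ → ℂ} (hf : MemLp f 2 tau) (k : ℝ) :
    ∫ x, e (k * x) * f x ∂tau = (1 / 2 : ℂ) * ∫ x, e (k * (1 / 2 - x / 2)) * f (1 / 2 - x / 2) ∂tau +
      (1 / 2 : ℂ) * ∫ x, e (k * (1 - x / 2)) * f (1 - x / 2) ∂tau := by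
  rw [fold _ (integrable_tau (mul_e_memLp hf k))]
  simp [Complex.real_smul]

/-- the orthogonality relations force a function on the three sides to vanish -/
theorem three_eq {f₁ f₂ f₃ : ℝ → ℂ} (m1 : MemLp f₁ 2 tau) (m2 : MemLp f₂ 2 tau) (m3 : MemLp f₃ 2 tau)
    (h0 : ∀ m : ℤ, ∫ x, e ((2 * m + 1 : ℝ) * x) * f₁ x ∂tau + ∫ x, e (-(m + 1 / 2 : ℝ) * x) * f₂ x ∂tau
      - ∫ x, e (-(m + 1 / 2 : ℝ) * x) * f₃ x ∂tau = 0)
    (h1 : ∀ m : ℤ, ∫ x, e (-(m + 1 / 2 : ℝ) * x) * f₁ x ∂tau - ∫ x, e ((2 * m + 1 : ℝ) * x) * f₂ x ∂tau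
      - ∫ x, e (-(m + 1 / 2 : ℝ) * x) * f₃ x ∂tau = 0)
    (h2 : ∀ m : ℤ, ∫ x, e (-(m : ℝ) * x) * f₁ x ∂tau + ∫ x, e (-(m : ℝ) * x) * f₂ x ∂tau
      + ∫ x, e ((2 * m : ℝ) * x) * f₃ x ∂tau = 0) :
    f₁ =ᵐ[tau] 0 ∧ f₂ =ᵐ[tau] 0 ∧ f₃ =ᵐ[tau] 0 := by
  have a0 : ∀ {f : ℝ → ℂ}, MemLp f 2 tau → MemLp (fun x : ℝ => f (1 / 2 - x / 2)) 2 tau := fun hf =>
    memLp_half le_rfl (by norm_num) hf
  have a1 : ∀ {f : ℝ → ℂ}, MemLp f 2 tau → MemLp (fun x : ℝ => f (1 - x / 2)) 2 tau := fun hf =>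
    memLp_half (by norm_num) le_rfl hf
  have ie : ∀ {f : ℝ → ℂ} (k : ℝ), MemLp f 2 tau → Integrable (fun x => e (k * x) * f x) tau :=
    fun k hf => integrable_tau (mul_e_memLp hf k)
  -- the folded exponentials
  have k0 : ∀ (m : ℤ) (x : ℝ), e ((2 * m + 1 : ℝ) * (1 / 2 - x / 2)) = -e (-(m + 1 / 2 : ℝ) * x) := by
    intro m x
    rw [show (2 * m + 1 : ℝ) * (1 / 2 - x / 2) = (-(m + 1 / 2 : ℝ) * x + 1 / 2) + (m : ℤ) by ring, e_add_int, e_add,
      e_half]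
    ring
  have k1 : ∀ (m : ℤ) (x : ℝ), e ((2 * m + 1 : ℝ) * (1 - x / 2)) = e (-(m + 1 / 2 : ℝ) * x) := by
    intro m x
    rw [show (2 * m + 1 : ℝ) * (1 - x / 2) = (-(m + 1 / 2 : ℝ) * x) + ((2 * m + 1 : ℤ) : ℝ) by push_cast; ring,
      e_add_int]
  have k2 : ∀ (m : ℤ) (x : ℝ), e ((2 * m : ℝ) * (1 / 2 - x / 2)) = e (-(m : ℝ) * x) := by
    intro m x
    rw [show (2 * m : ℝ) * (1 / 2 - x / 2) = (-(m : ℝ) * x) + (m : ℤ) by ring, e_add_int]
  have k3 : ∀ (m : ℤ) (x : ℝ), e ((2 * m : ℝ) * (1 - x / 2)) = e (-(m : ℝ) * x) := by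
    intro m x
    rw [show (2 * m : ℝ) * (1 - x / 2) = (-(m : ℝ) * x) + ((2 * m : ℤ) : ℝ) by push_cast; ring, e_add_int]
  have half : ∀ (m : ℤ) (x : ℝ), e (-(m + 1 / 2 : ℝ) * x) = e (-(m * x)) * e (-(1 / 2 : ℝ) * x) := by
    intro m x
    rw [← e_add]; congr 1; ring
  have whole : ∀ (m : ℤ) (x : ℝ), e (-(m : ℝ) * x) = e (-(m * x)) := by
    intro m x
    congr 1; ring
  have o1 : ∀ {f : ℝ → ℂ} (m : ℤ), MemLp f 2 tau → ∫ x, e ((2 * m + 1 : ℝ) * x) * f x ∂tau =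
      (1 / 2 : ℂ) * ∫ x, e (-(m + 1 / 2 : ℝ) * x) * f (1 - x / 2) ∂tau -
      (1 / 2 : ℂ) * ∫ x, e (-(m + 1 / 2 : ℝ) * x) * f (1 / 2 - x / 2) ∂tau := by
    intro f m hf
    rw [fold_e hf]
    simp only [k0, k1, neg_mul, integral_neg]
    ring
  have o2 : ∀ {f : ℝ → ℂ} (m : ℤ), MemLp f 2 tau → ∫ x, e ((2 * m : ℝ) * x) * f x ∂tau =
      (1 / 2 : ℂ) * ∫ x, e (-(m : ℝ) * x) * f (1 - x / 2) ∂tau +
      (1 / 2 : ℂ) * ∫ x, e (-(m : ℝ) * x) * f (1 / 2 - x / 2) ∂tau := by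
    intro f m hf
    rw [fold_e hf]
    simp only [k2, k3]
    ring
  have unit : ∀ {G : ℝ → ℂ}, (fun x => e (-(1 / 2 : ℝ) * x) * G x) =ᵐ[tau] 0 → ∀ᵐ x ∂tau, G x = 0 := by
    intro G hG
    filter_upwards [hG] with x hx
    exact (mul_eq_zero.1 hx).resolve_left (e_ne_zero _)
  -- the three relations
  have mm : ∀ {f g h k : ℝ → ℂ} (c : ℂ), MemLp f 2 tau → MemLp g 2 tau → MemLp h 2 tau → MemLp k 2 tau → ∀ c₁ c₂ c₃ c₄ : ℂ,
      MemLp (fun x => c₁ * f x + c₂ * g x + c₃ * h x + c₄ * k x) 2 tau := by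
    intro f g h k _ hf hg hh hk c₁ c₂ c₃ c₄
    exact (((hf.const_mul c₁).add (hg.const_mul c₂)).add (hh.const_mul c₃)).add (hk.const_mul c₄)
  have g0 : ∀ᵐ s ∂tau, f₂ s - f₃ s + (f₁ (1 - s / 2) - f₁ (1 / 2 - s / 2)) / 2 = 0 := by
    have hz : (fun x => e (-(1 / 2 : ℝ) * x) * ((1 : ℂ) * f₂ x + (-1 : ℂ) * f₃ x + (1 / 2 : ℂ) * f₁ (1 - x / 2) +
        (-1 / 2 : ℂ) * f₁ (1 / 2 - x / 2))) =ᵐ[tau] 0 := by
      refine zero_of_coeff (mul_e_memLp (mm 0 m2 m3 (a1 m1) (a0 m1) _ _ _ _) _) fun m => ?_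
      have h := h0 m
      rw [o1 m m1] at h
      have e1 : (fun x => e (-((m : ℝ) * x)) * (e (-(1 / 2 : ℝ) * x) * ((1 : ℂ) * f₂ x + (-1 : ℂ) * f₃ x +
          (1 / 2 : ℂ) * f₁ (1 - x / 2) + (-1 / 2 : ℂ) * f₁ (1 / 2 - x / 2)))) =
          fun x => (1 : ℂ) * (e (-(m + 1 / 2 : ℝ) * x) * f₂ x) + (-1 : ℂ) * (e (-(m + 1 / 2 : ℝ) * x) * f₃ x) +
          (1 / 2 : ℂ) * (e (-(m + 1 / 2 : ℝ) * x) * f₁ (1 - x / 2)) +
          (-1 / 2 : ℂ) * (e (-(m + 1 / 2 : ℝ) * x) * f₁ (1 / 2 - x / 2)) := by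
        funext x
        rw [half]
        ring
      rw [e1, comb4 (ie _ m2) (ie _ m3) (ie _ (a1 m1)) (ie _ (a0 m1))]
      linear_combination h
    filter_upwards [unit hz] with s hs
    linear_combination hs
  have g1 : ∀ᵐ s ∂tau, f₁ s - f₃ s - (f₂ (1 - s / 2) - f₂ (1 / 2 - s / 2)) / 2 = 0 := by
    have hz : (fun x => e (-(1 / 2 : ℝ) * x) * ((1 : ℂ) * f₁ x + (-1 : ℂ) * f₃ x + (-1 / 2 : ℂ) * f₂ (1 - x / 2) +
        (1 / 2 : ℂ) * f₂ (1 / 2 - x / 2))) =ᵐ[tau] 0 := by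
      refine zero_of_coeff (mul_e_memLp (mm 0 m1 m3 (a1 m2) (a0 m2) _ _ _ _) _) fun m => ?_
      have h := h1 m
      rw [o1 m m2] at h
      have e1 : (fun x => e (-((m : ℝ) * x)) * (e (-(1 / 2 : ℝ) * x) * ((1 : ℂ) * f₁ x + (-1 : ℂ) * f₃ x +
          (-1 / 2 : ℂ) * f₂ (1 - x / 2) + (1 / 2 : ℂ) * f₂ (1 / 2 - x / 2)))) =
          fun x => (1 : ℂ) * (e (-(m + 1 / 2 : ℝ) * x) * f₁ x) + (-1 : ℂ) * (e (-(m + 1 / 2 : ℝ) * x) * f₃ x) +
          (-1 / 2 : ℂ) * (e (-(m + 1 / 2 : ℝ) * x) * f₂ (1 - x / 2)) +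
          (1 / 2 : ℂ) * (e (-(m + 1 / 2 : ℝ) * x) * f₂ (1 / 2 - x / 2)) := by
        funext x
        rw [half]
        ring
      rw [e1, comb4 (ie _ m1) (ie _ m3) (ie _ (a1 m2)) (ie _ (a0 m2))]
      linear_combination h
    filter_upwards [unit hz] with s hs
    linear_combination hs
  have g2 : ∀ᵐ s ∂tau, f₁ s + f₂ s + (f₃ (1 - s / 2) + f₃ (1 / 2 - s / 2)) / 2 = 0 := by
    have hz : (fun x => (1 : ℂ) * f₁ x + (1 : ℂ) * f₂ x + (1 / 2 : ℂ) * f₃ (1 - x / 2) +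
        (1 / 2 : ℂ) * f₃ (1 / 2 - x / 2)) =ᵐ[tau] 0 := by
      refine zero_of_coeff (mm 0 m1 m2 (a1 m3) (a0 m3) _ _ _ _) fun m => ?_
      have h := h2 m
      rw [o2 m m3] at h
      have e1 : (fun x => e (-((m : ℝ) * x)) * ((1 : ℂ) * f₁ x + (1 : ℂ) * f₂ x +
          (1 / 2 : ℂ) * f₃ (1 - x / 2) + (1 / 2 : ℂ) * f₃ (1 / 2 - x / 2))) =
          fun x => (1 : ℂ) * (e (-(m : ℝ) * x) * f₁ x) + (1 : ℂ) * (e (-(m : ℝ) * x) * f₂ x) +
          (1 / 2 : ℂ) * (e (-(m : ℝ) * x) * f₃ (1 - x / 2)) +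
          (1 / 2 : ℂ) * (e (-(m : ℝ) * x) * f₃ (1 / 2 - x / 2)) := by
        funext x
        rw [whole]
        ring
      rw [e1, comb4 (ie _ m1) (ie _ m2) (ie _ (a1 m3)) (ie _ (a0 m3))]
      linear_combination h
    filter_upwards [hz] with s hs
    have hs' : (1 : ℂ) * f₁ s + (1 : ℂ) * f₂ s + (1 / 2 : ℂ) * f₃ (1 - s / 2) +
        (1 / 2 : ℂ) * f₃ (1 / 2 - s / 2) = 0 := hs
    linear_combination hs'
  exact kernel m1 m2 m3 g0 g1 g2

theorem complete_aux3 (h : LinearIndependent ℝ ![u, v]) [IsFiniteMeasure (sg b u v)] {f : E → ℂ}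
    (hsm : StronglyMeasurable f) (hm : MemLp f 2 (sg b u v))
    (horth : ∀ g : Fin 3 × ℤ, ∫ x, conj (ex (fr3 u v g) x) * f x ∂(sg b u v) = 0) :
    ∀ᵐ x ∂(sg b u v), f x = 0 := by
  have hu : 0 < ‖u‖ := norm_pos_iff.2 (h.ne_zero 0)
  have hv : 0 < ‖v‖ := norm_pos_iff.2 (h.ne_zero 1)
  have hv' : 0 < ‖-v‖ := by rwa [norm_neg]
  have hw := sub_ne h
  obtain ⟨le1, le2, le3⟩ := le_sg (b := b) h
  have m1 := memLp_edge hu (hm.mono_measure le1)
  have m2 := memLp_edge hw (hm.mono_measure le2)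
  have m3 := memLp_edge hv' (hm.mono_measure le3)
  -- the general relation
  have rel : ∀ g : Fin 3 × ℤ,
      (‖u‖ : ℂ) * ∫ t, e (-(xc g.1 g.2) * t) * f (b + t • u) ∂tau
      + (‖v - u‖ : ℂ) * ∫ t, e (-(xc g.1 g.2) * (1 - t)) * e (-(yc g.1 g.2) * t) * f (b + u + t • (v - u)) ∂tau
      + (‖v‖ : ℂ) * ∫ t, e (-(yc g.1 g.2) * (1 - t)) * f (b + v + t • (-v)) ∂tau = 0 := by
    intro g
    have h0 := horth g
    have hcont : Continuous fun x => conj (ex (fr3 u v g) x) :=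
      Complex.continuous_conj.comp (ex_continuous _)
    have hint : Integrable (fun x => conj (ex (fr3 u v g) x) * f x) (sg b u v) := by
      have hb : MemLp (fun x => conj (ex (fr3 u v g) x)) ⊤ (sg b u v) := by
        refine memLp_top_of_bound hcont.aestronglyMeasurable 1
          (Filter.Eventually.of_forall fun x => ?_)
        rw [RCLike.norm_conj, norm_ex]
      exact (hm.integrable (by norm_num)).mul_of_top_right hb
    have hsm' : StronglyMeasurable fun x => conj (ex (fr3 u v g) x) * f x :=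
      hcont.stronglyMeasurable.mul hsm
    rw [sg_eq h] at h0
    rw [integral_add_measure, integral_add_measure,
      integral_edge _ _ _ hsm'.aestronglyMeasurable, integral_edge _ _ _ hsm'.aestronglyMeasurable,
      integral_edge _ _ _ hsm'.aestronglyMeasurable, norm_neg] at h0
    · have hc0 : ex (fr3 u v g) b ≠ 0 := Complex.exp_ne_zero _
      have hc1 : conj (ex (fr3 u v g) b) ≠ 0 := by simpa using hc0
      have w1 : ∀ t : ℝ, conj (ex (fr3 u v g) (b + t • u)) =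
          conj (ex (fr3 u v g) b) * e (-(xc g.1 g.2) * t) := by
        intro t
        rw [edge1 (v := v) t, ex_fr3 h g t 0, mul_zero, e_zero, mul_one, map_mul, conj_e, neg_mul]
      have w2 : ∀ t : ℝ, conj (ex (fr3 u v g) (b + u + t • (v - u))) =
          conj (ex (fr3 u v g) b) * (e (-(xc g.1 g.2) * (1 - t)) * e (-(yc g.1 g.2) * t)) := by
        intro t
        rw [edge2 t, ex_fr3 h g (1 - t) t, map_mul, map_mul, conj_e, conj_e, neg_mul, neg_mul]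
      have w3 : ∀ t : ℝ, conj (ex (fr3 u v g) (b + v + t • (-v))) =
          conj (ex (fr3 u v g) b) * e (-(yc g.1 g.2) * (1 - t)) := by
        intro t
        rw [edge3 (u := u) t, ex_fr3 h g 0 (1 - t), mul_zero, e_zero, one_mul, map_mul, conj_e, neg_mul]
      simp only [w1, w2, w3, mul_assoc, integral_const_mul] at h0
      have h5 : conj (ex (fr3 u v g) b) *
          ((‖u‖ : ℂ) * ∫ t, e (-(xc g.1 g.2) * t) * f (b + t • u) ∂tau
      + (‖v - u‖ : ℂ) * ∫ t, e (-(xc g.1 g.2) * (1 - t)) * (e (-(yc g.1 g.2) * t) * f (b + u + t • (v - u))) ∂tau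
      + (‖v‖ : ℂ) * ∫ t, e (-(yc g.1 g.2) * (1 - t)) * f (b + v + t • (-v)) ∂tau) = 0 := by
        rw [← h0]
        simp only [Complex.real_smul]
        ring
      simp only [mul_assoc]
      exact (mul_eq_zero.1 h5).resolve_left hc1
    · exact hint.mono_measure le1
    · exact hint.mono_measure le2
    · exact (hint.mono_measure le1).add_measure (hint.mono_measure le2)
    · exact hint.mono_measure le3
  set F₁ : ℝ → ℂ := fun t => (‖u‖ : ℂ) * f (b + t • u) with hF₁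
  set F₂ : ℝ → ℂ := fun t => (‖v - u‖ : ℂ) * f (b + u + t • (v - u)) with hF₂
  set F₃ : ℝ → ℂ := fun t => (‖v‖ : ℂ) * f (b + v + t • (-v)) with hF₃
  have n1 : MemLp F₁ 2 tau := m1.const_mul _
  have n2 : MemLp F₂ 2 tau := m2.const_mul _
  have n3 : MemLp F₃ 2 tau := m3.const_mul _
  have pull : ∀ (c : ℂ) (k : ℝ → ℂ) (φ : ℝ → ℂ), c * ∫ t, k t * φ t ∂tau = ∫ t, k t * (c * φ t) ∂tau := by
    intro c k φ
    rw [← integral_const_mul]
    congr 1
    funext t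
    ring
  have rel' : ∀ g : Fin 3 × ℤ,
      ∫ t, e (-(xc g.1 g.2) * t) * F₁ t ∂tau
      + ∫ t, (e (-(xc g.1 g.2) * (1 - t)) * e (-(yc g.1 g.2) * t)) * F₂ t ∂tau
      + ∫ t, e (-(yc g.1 g.2) * (1 - t)) * F₃ t ∂tau = 0 := by
    intro g
    rw [← rel g, pull, pull, pull]
  have ng : ∀ (k φ : ℝ → ℂ), ∫ t, (-k t) * φ t ∂tau = -∫ t, k t * φ t ∂tau := by
    intro k φ
    rw [← integral_neg]
    congr 1
    funext t
    ring
  obtain ⟨k1, k2, k3⟩ := three_eq n1 n2 n3 (by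
    intro m
    have h0 := rel' (0, m)
    have c1 : ∀ t : ℝ, e (-(xc 0 m) * t) = e ((2 * m + 1 : ℝ) * t) := by
      intro t
      congr 1
      show -(-(2 * (m : ℝ) + 1)) * t = _
      ring
    have c2 : ∀ t : ℝ, e (-(xc 0 m) * (1 - t)) * e (-(yc 0 m) * t) = e (-(m + 1 / 2 : ℝ) * t) := by
      intro t
      rw [← e_add]
      rw [show -(xc 0 m) * (1 - t) + -(yc 0 m) * t = (-(m + 1 / 2 : ℝ) * t) + ((2 * m + 1 : ℤ) : ℝ) by
        show -(-(2 * (m : ℝ) + 1)) * (1 - t) + -(-((m : ℝ) + 1 / 2)) * t = _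
        push_cast; ring, e_add_int]
    have c3 : ∀ t : ℝ, e (-(yc 0 m) * (1 - t)) = -e (-(m + 1 / 2 : ℝ) * t) := by
      intro t
      rw [show -(yc 0 m) * (1 - t) = (-(m + 1 / 2 : ℝ) * t + 1 / 2) + (m : ℤ) by
        show -(-((m : ℝ) + 1 / 2)) * (1 - t) = _
        ring, e_add_int, e_add, e_half]
      ring
    simp only [c2] at h0
    simp only [c1, c3] at h0
    rw [ng] at h0
    linear_combination h0) (by
    intro m
    have h0 := rel' (1, m)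
    have c1 : ∀ t : ℝ, e (-(xc 1 m) * t) = e (-(m + 1 / 2 : ℝ) * t) := by
      intro t
      rfl
    have c2 : ∀ t : ℝ, e (-(xc 1 m) * (1 - t)) * e (-(yc 1 m) * t) = -e ((2 * m + 1 : ℝ) * t) := by
      intro t
      rw [← e_add]
      rw [show -(xc 1 m) * (1 - t) + -(yc 1 m) * t = ((2 * m + 1 : ℝ) * t + 1 / 2) + ((-m - 1 : ℤ) : ℝ) by
        show -((m : ℝ) + 1 / 2) * (1 - t) + -(-((m : ℝ) + 1 / 2)) * t = _
        push_cast; ring, e_add_int, e_add, e_half]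
      ring
    have c3 : ∀ t : ℝ, e (-(yc 1 m) * (1 - t)) = -e (-(m + 1 / 2 : ℝ) * t) := by
      intro t
      rw [show -(yc 1 m) * (1 - t) = (-(m + 1 / 2 : ℝ) * t + 1 / 2) + (m : ℤ) by
        show -(-((m : ℝ) + 1 / 2)) * (1 - t) = _
        ring, e_add_int, e_add, e_half]
      ring
    simp only [c2] at h0
    simp only [c1, c3] at h0
    rw [ng, ng] at h0
    linear_combination h0) (by
    intro m
    have h0 := rel' (2, m)
    have c1 : ∀ t : ℝ, e (-(xc 2 m) * t) = e (-(m : ℝ) * t) := by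
      intro t
      rfl
    have c2 : ∀ t : ℝ, e (-(xc 2 m) * (1 - t)) * e (-(yc 2 m) * t) = e (-(m : ℝ) * t) := by
      intro t
      rw [← e_add]
      rw [show -(xc 2 m) * (1 - t) + -(yc 2 m) * t = (-(m : ℝ) * t) + ((-m : ℤ) : ℝ) by
        show -(m : ℝ) * (1 - t) + -(2 * (m : ℝ)) * t = _
        push_cast; ring, e_add_int]
    have c3 : ∀ t : ℝ, e (-(yc 2 m) * (1 - t)) = e ((2 * m : ℝ) * t) := by
      intro t
      rw [show -(yc 2 m) * (1 - t) = ((2 * m : ℝ) * t) + ((-(2 * m) : ℤ) : ℝ) by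
        show -(2 * (m : ℝ)) * (1 - t) = _
        push_cast; ring, e_add_int]
    simp only [c2] at h0
    simp only [c1, c3] at h0
    exact h0)
  have cu : (‖u‖ : ℂ) ≠ 0 := by exact_mod_cast hu.ne'
  have cw : (‖v - u‖ : ℂ) ≠ 0 := by exact_mod_cast hw.ne'
  have cv : (‖v‖ : ℂ) ≠ 0 := by exact_mod_cast hv.ne'
  have q1 : (fun t : ℝ => f (b + t • u)) =ᵐ[tau] 0 := by
    filter_upwards [k1] with t ht
    exact (mul_eq_zero.1 ht).resolve_left cu
  have q2 : (fun t : ℝ => f (b + u + t • (v - u))) =ᵐ[tau] 0 := by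
    filter_upwards [k2] with t ht
    exact (mul_eq_zero.1 ht).resolve_left cw
  have q3 : (fun t : ℝ => f (b + v + t • (-v))) =ᵐ[tau] 0 := by
    filter_upwards [k3] with t ht
    exact (mul_eq_zero.1 ht).resolve_left cv
  rw [sg_eq h, ae_add_measure_iff, ae_add_measure_iff]
  exact ⟨⟨ae_edge hsm q1, ae_edge hsm q2⟩, ae_edge hsm q3⟩

theorem complete3 (h : LinearIndependent ℝ ![u, v]) [IsFiniteMeasure (sg b u v)] :
    (Submodule.span ℂ (exLp (sg b u v) '' range (fr3 u v))).topologicalClosure = ⊤ := by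
  rw [Submodule.topologicalClosure_eq_top_iff, Submodule.eq_bot_iff]
  intro f hf
  rw [Submodule.mem_orthogonal] at hf
  have horth : ∀ g : Fin 3 × ℤ, ∫ x, conj (ex (fr3 u v g) x) * f x ∂(sg b u v) = 0 := by
    intro g
    have h1 := hf (exLp (sg b u v) (fr3 u v g)) (Submodule.subset_span ⟨_, ⟨g, rfl⟩, rfl⟩)
    rw [L2.inner_def] at h1
    rw [← h1]
    refine integral_congr_ae ?_
    filter_upwards [(ex_memLp (sg b u v) (fr3 u v g)).coeFn_toLp] with x hx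
    have hx' : (exLp (sg b u v) (fr3 u v g)) x = ex (fr3 u v g) x := hx
    rw [hx', RCLike.inner_apply]
    ring
  rw [Lp.eq_zero_iff_ae_eq_zero]
  exact complete_aux3 h (Lp.stronglyMeasurable f) (Lp.memLp f) horth

theorem basis (b u v : E) (h : LinearIndependent ℝ ![u, v]) : IsRieszBasis (sg b u v) (range (fr3 u v)) := by
  classical
  haveI := sg_finite (b := b) h
  have hu : 0 < ‖u‖ := norm_pos_iff.2 (h.ne_zero 0)
  have hv : 0 < ‖v‖ := norm_pos_iff.2 (h.ne_zero 1)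
  have hw := sub_ne h
  have hmin : 0 < min (min ‖u‖ ‖v - u‖) ‖v‖ := lt_min (lt_min hu hw) hv
  refine ⟨inferInstance, countable_range _, dense_of_closure (complete3 h),
    min (min ‖u‖ ‖v - u‖) ‖v‖ / 4438, 10 * max (max ‖u‖ ‖v - u‖) ‖v‖, by positivity, ?_, ?_⟩
  · have h1 : min (min ‖u‖ ‖v - u‖) ‖v‖ ≤ max (max ‖u‖ ‖v - u‖) ‖v‖ :=
      (min_le_right _ _).trans (le_max_right _ _)
    linarith
  · intro F c hF
    obtain ⟨G, hG⟩ : ∃ G : Finset (Fin 3 × ℤ), G.image (fr3 u v) = F := by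
      have h1 : (F : Set E) ⊆ (fr3 u v) '' univ := by rwa [image_univ]
      obtain ⟨G, -, hG⟩ := Finset.subset_set_image_iff.1 h1
      exact ⟨G, hG⟩
    have hsum : ∀ {R : Type} [AddCommMonoid R] (φ : E → R),
        ∑ l ∈ F, φ l = ∑ g ∈ G, φ (fr3 u v g) := by
      intro R _ φ
      rw [← hG, Finset.sum_image fun x _ y _ hxy => fr3_inj h hxy]
    have h2 := riesz_ineq3 (b := b) h G c
    simp only [comb, hsum]
    exact h2

/-- **Main theorem.** For every (nondegenerate) triangle in the plane the length measure of its boundary admits an exponential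
Riesz basis. -/
theorem result (p q r : E) (h : AffineIndependent ℝ ![p, q, r]) :
    ∃ Λ : Set E, IsRieszBasis ((μH[1] : Measure E).restrict (frontier (convexHull ℝ {p, q, r}))) Λ := by
  have hl := lin_of_aff h
  refine ⟨range (fr3 (q - p) (r - p)), ?_⟩
  have h1 := basis p (q - p) (r - p) hl
  have h2 : sg p (q - p) (r - p) = (μH[1] : Measure E).restrict (frontier (convexHull ℝ {p, q, r})) := by
    rw [frontier_tri h]
    unfold sg
    rw [add_sub_cancel, add_sub_cancel]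
  rwa [h2] at h1

end Pool.Agent.Results.MP_9e9244_an.TriangleRieszBasis
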